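import Pool.Agent.Helper66.DC.Goals3

/-!
Project DC3 (MP_628424_an), packet DIM: the dimension of the span, without chart.
-/

namespace Pool.Agent.Helper16.DC

open MvPolynomial Finset ComplexConjugate Pool.Agent.Helper69.DC Pool.Agent.Helper66.DC

/-- the chart `v 0 = s`, `v (i + 1) = s X_i` -/
noncomputable def ch (m : ℕ) (s : ℂ) : MvPolynomial (Fin (m + 1)) ℂ →ₐ[ℂ] MvPolynomial (Fin m) ℂ :=
  aeval (Fin.cons (C s) fun i => C s * X i)

lemma eval_ch {m : ℕ} (s : ℂ) (y : Fin m → ℂ) (p : MvPolynomial (Fin (m + 1)) ℂ) :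
    eval y (ch m s p) = eval (Fin.cons s fun i => s * y i : Fin (m + 1) → ℂ) p := by
  have h : (aeval y : MvPolynomial (Fin m) ℂ →ₐ[ℂ] ℂ).comp (ch m s) =
      aeval (Fin.cons s fun i => s * y i : Fin (m + 1) → ℂ) := by
    apply MvPolynomial.algHom_ext
    intro i
    rw [AlgHom.comp_apply]
    unfold ch
    rw [aeval_X, aeval_X]
    refine Fin.cases ?_ (fun i => ?_) i
    · simp
    · simp
  have h2 := congrArg (fun f => f p) h
  simp only [AlgHom.comp_apply] at h2
  rw [aeval_eq_eval, aeval_eq_eval] at h2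
  exact h2

lemma ch_C {m : ℕ} (s a : ℂ) : ch m s (C a) = C a := by
  unfold ch
  rw [aeval_C]
  rfl

lemma hfc_ch {m N : ℕ} (s : ℂ) (c : Fin (N + 1) → MvPolynomial (Fin (m + 1)) ℂ) (u : Fin (N + 1) → ℂ) :
    hfc (fun k => ch m s (c k)) u = ch m s (hfc c u) := by
  unfold hfc
  rw [map_sub, map_mul, map_sum, ch_C]
  congr 1
  refine sum_congr rfl fun j _ => ?_
  rw [map_mul, ch_C]

lemma lf_ch {m : ℕ} (s : ℂ) (v : Fin m → ℂ) :
    ch m s (lf (Fin.cons s fun i => s * v i : Fin (m + 1) → ℂ)) = C (s * conj s) * (1 + lf v) := by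
  unfold lf
  rw [map_sum, Fin.sum_univ_succ]
  simp only [map_mul, ch_C, Fin.cons_zero, Fin.cons_succ]
  unfold ch
  simp only [aeval_X, Fin.cons_zero, Fin.cons_succ]
  rw [mul_add, mul_sum]
  congr 1
  · ring
  · refine sum_congr rfl fun j _ => ?_
    ring

theorem h_dim (h : J_DIMC) : J_DIM := by
  intro m N E A0 c h0 h1 h2 h3
  have key : ∀ v : Fin (m + 1) → ℂ, v 0 ≠ 0 → hf (ev c v) (ev c v) = 0 := by
    intro v hv
    set s := v 0 with hs
    have hev : ∀ y : Fin m → ℂ, ev (fun k => ch m s (c k)) y =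
        ev c (Fin.cons s fun i => s * y i : Fin (m + 1) → ℂ) := fun y => by
      funext k
      exact eval_ch s y (c k)
    have hss : s * conj s ≠ 0 := mul_ne_zero hv (by simpa using hv)
    have h4 := h m N E A0 (fun k => ch m s (c k)) h0 (fun y => by rw [hev]; exact h1 _)
      (fun w => by
        rw [hev, hfc_ch]
        have h5 := map_dvd (ch m s) (h2 (Fin.cons s fun i => s * w i : Fin (m + 1) → ℂ))
        rw [map_pow, lf_ch, mul_pow] at h5
        exact (Dvd.intro_left _ rfl).trans h5)
      (by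
        refine le_trans (Submodule.finrank_mono (Submodule.span_mono (Set.insert_subset_insert ?_))) h3
        rintro _ ⟨y, rfl⟩
        exact ⟨_, (hev y).symm⟩)
      (fun i => v i.succ / s)
    rw [hev] at h4
    have h6 : (Fin.cons s fun i => s * (v i.succ / s) : Fin (m + 1) → ℂ) = v := by
      funext i
      refine Fin.cases ?_ (fun i => ?_) i
      · rw [Fin.cons_zero]
      · rw [Fin.cons_succ, mul_div_cancel₀ _ hv]
    rwa [h6] at h4
  intro v
  by_cases hv : v 0 = 0
  swap
  · exact key v hv
  have hcont : Continuous fun t : ℂ => hf (ev c (Function.update v 0 t)) (ev c (Function.update v 0 t)) := by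
    have h5 : ∀ k, Continuous fun t : ℂ => ev c (Function.update v 0 t) k := by
      intro k
      unfold ev
      exact (MvPolynomial.continuous_eval (c k)).comp (continuous_const.update 0 continuous_id)
    unfold hf
    refine ((h5 0).mul (Complex.continuous_conj.comp (h5 0))).sub (continuous_finsetSum _ fun j _ => ?_)
    exact (h5 j.succ).mul (Complex.continuous_conj.comp (h5 j.succ))
  have h7 := hcont.ext_on (dense_compl_singleton (0 : ℂ)) continuous_const (fun t ht => key _ (by
    rw [Function.update_self]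
    exact ht))
  have h8 := congrFun h7 0
  have h9 : Function.update v 0 0 = v := by
    rw [← hv]
    exact Function.update_eq_self 0 v
  change hf (ev c (Function.update v 0 0)) (ev c (Function.update v 0 0)) = 0 at h8
  rwa [h9] at h8

end Pool.Agent.Helper16.DC
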